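import Pool.Agent.TH726.ST.Expand

/-!
# Shadowing for uniform convergence actions
-/

set_option autoImplicit false

open Filter Topology Set

namespace Pool.Agent.TH726.ST

open Pool.Agent.TH289.C

variable {G : Type} [Group G] {X : Type} [MetricSpace X] {α : G →* (X ≃ₜ X)}

theorem alpha_mul (α : G →* (X ≃ₜ X)) (g h : G) (w : X) : α (g * h) w = α g (α h w) := by
  rw [map_mul]; rfl

theorem alpha_one (α : G →* (X ≃ₜ X)) (w : X) : α 1 w = w := by
  rw [map_one]; rfl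

theorem alpha_mul_inv (α : G →* (X ≃ₜ X)) (g a : G) (w : X) : α (g * a) (α a⁻¹ w) = α g w := by
  rw [← alpha_mul, mul_inv_cancel_right]

/-- The path from `h`. -/
def P (γ : X → G) (φ : G → X) (h : G) : ℕ → G
  | 0 => h
  | k + 1 => γ (φ (P γ φ h k)) * P γ φ h k

omit [MetricSpace X] in
theorem P_add (γ : X → G) (φ : G → X) (h : G) (n k : ℕ) :
    P γ φ (P γ φ h n) k = P γ φ h (n + k) := by
  induction k with
  | zero => rfl
  | succ k ih =>
    change γ (φ (P γ φ (P γ φ h n) k)) * P γ φ (P γ φ h n) k = _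
    rw [ih]; rfl

/-- Pseudo-orbits. -/
def PO (α : G →* (X ≃ₜ X)) (F : Set G) (δ : ℝ) (φ : G → X) : Prop :=
  ∀ g ∈ F, ∀ h, dist (φ (g * h)) (α g (φ h)) ≤ δ

/-- `y` shadows `φ` along the path from `h`. -/
def Sh (α : G →* (X ≃ₜ X)) (γ : X → G) (r : ℝ) (φ : G → X) (h : G) (y : X) : Prop :=
  ∀ k, dist (φ (P γ φ h k)) (α (P γ φ h k) y) ≤ r

theorem Sh.tail {γ : X → G} {r : ℝ} {φ : G → X} {h : G} {y : X} (hs : Sh α γ r φ h y) (n : ℕ) :
    Sh α γ r φ (P γ φ h n) y := by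
  intro k
  rw [P_add]
  exact hs _

/-- The parameters. -/
structure Par (α : G →* (X ≃ₜ X)) (γ : X → G) (F : Set G) (r ε₂ : ℝ) : Prop where
  conv : IsConvergenceAction α
  finF : F.Finite
  mem : ∀ x, γ x ∈ F
  exp : ∀ x w, dist (α (γ x) x) (α (γ x) w) < 2 * ε₂ → dist x w < r
  r_pos : 0 < r
  r4 : r ≤ ε₂ / 4
  conn : ∀ x : X, ∃ v, r < dist x v ∧ dist x v < ε₂
  big : ∃ t : Fin 3 → X, 2 * ε₂ ≤ sep t

variable {γ : X → G} {F S : Set G} {r ε₂ : ℝ}

theorem Par.nest (hp : Par α γ F r ε₂) {φ : G → X} {δ : ℝ} (hφ : PO α F δ φ) (hδ : δ ≤ r) (h : G)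
    (k : ℕ) (w : X) (hw : dist (φ (P γ φ h (k + 1))) (α (P γ φ h (k + 1)) w) < ε₂) :
    dist (φ (P γ φ h k)) (α (P γ φ h k) w) < r := by
  refine hp.exp _ _ ?_
  set g := γ (φ (P γ φ h k)) with hg
  have h1 : P γ φ h (k + 1) = g * P γ φ h k := rfl
  have h2 := hφ g (hp.mem _) (P γ φ h k)
  rw [h1, alpha_mul] at hw
  have h3 := dist_triangle (α g (φ (P γ φ h k))) (φ (g * P γ φ h k)) (α g (α (P γ φ h k) w))
  rw [dist_comm (α g (φ (P γ φ h k))) (φ (g * P γ φ h k))] at h3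
  have := hp.r4
  have := hp.r_pos
  linarith

theorem Par.exists_Sh [CompactSpace X] (hp : Par α γ F r ε₂) {φ : G → X} {δ : ℝ}
    (hφ : PO α F δ φ) (hδ : δ ≤ r) (h : G) : ∃ y, Sh α γ r φ h y := by
  have hcl : ∀ k, IsClosed {w | dist (φ (P γ φ h k)) (α (P γ φ h k) w) ≤ r} := by
    intro k
    have h2 : Continuous fun w => dist (φ (P γ φ h k)) (α (P γ φ h k) w) :=
      continuous_const.dist (α _).continuous
    exact isClosed_le h2 continuous_const
  have := IsCompact.nonempty_iInter_of_sequence_nonempty_isCompact_isClosed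
    (fun k => {w | dist (φ (P γ φ h k)) (α (P γ φ h k) w) ≤ r})
    (fun k w hw => (hp.nest hφ hδ h k w (lt_of_le_of_lt hw (by
      have := hp.r4
      have := hp.r_pos
      linarith))).le)
    (fun k => ⟨(α (P γ φ h k)).symm (φ (P γ φ h k)), by
      simp only [Set.mem_ofPred_eq, Homeomorph.apply_symm_apply, dist_self]
      exact hp.r_pos.le⟩) (hcl 0).isCompact hcl
  obtain ⟨y, hy⟩ := this
  rw [mem_iInter] at hy
  exact ⟨y, hy⟩

theorem Par.unique (hp : Par α γ F r ε₂) {φ : G → X} {δ : ℝ}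
    (hφ : PO α F δ φ) (hδ : δ ≤ r) {h : G} {u u' : X} (hu : Sh α γ r φ h u)
    (hu' : Sh α γ r φ h u') : u = u' := by
  obtain ⟨t, ht⟩ := hp.big
  exact nest_unique hp.conv (by
      have := hp.r4
      have := hp.r_pos
      linarith) hp.conn (fun k w hw => (hp.nest hφ hδ h k w hw).le) ht hu hu'

/-- The parameters for the generators. -/
structure ParS (α : G →* (X ≃ₜ X)) (S : Set G) (r ε₂ D : ℝ) : Prop where
  finS : S.Finite
  s1 : ∀ s ∈ S, ∀ u v, dist u v ≤ r → dist (α s u) (α s v) ≤ ε₂ / 4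
  s2 : ∀ s ∈ S, ∀ u v, dist (α s u) (α s v) ≤ 2 * r → dist u v ≤ ε₂ / 2
  s3 : ∀ s ∈ S, ∀ u v, D ≤ dist u v → 2 * ε₂ ≤ dist (α s u) (α s v)
  D1 : ε₂ ≤ D
  D2 : ∃ t : Fin 3 → X, 2 * D ≤ sep t

/-- One side of the separation argument. -/
theorem Par.half (hp : Par α γ F r ε₂) {c₁ : ℝ}
    (hc₁ : ∀ g ∈ F, ∀ u v, dist u v < c₁ → dist (α g u) (α g v) < ε₂ / 2 - r) {φ : G → X} {δ : ℝ}
    (hφ : PO α F δ φ) (hδ : δ ≤ r) {h : G} {y y' z : X} (hne : y ≠ y')
    (hy : Sh α γ r φ h y) (hy' : dist (φ h) (α h y') ≤ ε₂ / 2) (hz : ε₂ ≤ dist (φ h) (α h z)) :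
    ∃ a, Sh α γ r φ a y ∧ dist (φ a) (α a y') ≤ ε₂ / 2 ∧ ε₂ ≤ dist (φ a) (α a z) ∧
      c₁ ≤ dist (α a y) (α a y') ∧
      ε₂ / 2 < dist (φ (γ (φ a) * a)) (α (γ (φ a) * a) y') := by
  have hr4 := hp.r4
  have hr := hp.r_pos
  have hex : ∃ n, ε₂ / 2 < dist (φ (P γ φ h n)) (α (P γ φ h n) y') := by
    by_contra hcon
    push Not at hcon
    refine hne (hp.unique hφ hδ hy fun k => ?_)
    exact (hp.nest hφ hδ h k y' ((hcon (k + 1)).trans_lt (by linarith))).le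
  classical
  obtain ⟨n, hn, hmin⟩ : ∃ n, ε₂ / 2 < dist (φ (P γ φ h n)) (α (P γ φ h n) y') ∧
      ∀ m < n, ¬ ε₂ / 2 < dist (φ (P γ φ h m)) (α (P γ φ h m) y') :=
    ⟨Nat.find hex, Nat.find_spec hex, fun m hm => Nat.find_min hex hm⟩
  rcases n with _ | n
  · exact absurd hn (not_lt.2 hy')
  have hfar : ∀ k, ε₂ ≤ dist (φ (P γ φ h k)) (α (P γ φ h k) z) := by
    intro k
    induction k with
    | zero => exact hz
    | succ k ih =>
      by_contra hcon
      have := hp.nest hφ hδ h k z (not_le.1 hcon)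
      linarith
  refine ⟨P γ φ h n, hy.tail n, not_lt.1 (hmin n (Nat.lt_succ_self n)), hfar n, ?_, hn⟩
  by_contra hcon
  have h1 := hc₁ _ (hp.mem (φ (P γ φ h n))) _ _ (not_le.1 hcon)
  rw [← alpha_mul, ← alpha_mul] at h1
  have h2 := hy (n + 1)
  have h3 := dist_triangle (φ (P γ φ h (n + 1))) (α (P γ φ h (n + 1)) y)
    (α (P γ φ h (n + 1)) y')
  have h4 : P γ φ h (n + 1) = γ (φ (P γ φ h n)) * P γ φ h n := rfl
  rw [← h4] at h1
  linarith

/-- The separation lemma. -/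
theorem Par.sep (hp : Par α γ F r ε₂) {D : ℝ} (hS : ParS α S r ε₂ D) {c₁ : ℝ}
    (hc₁ : ∀ g ∈ F, ∀ u v, dist u v < c₁ → dist (α g u) (α g v) < ε₂ / 2 - r) {φ : G → X} {δ : ℝ}
    (hφ : PO α (F ∪ S) δ φ) (hδ : δ ≤ r) {h s : G} (hs : s ∈ S) {y y' : X} (hne : y ≠ y')
    (hy : Sh α γ r φ h y) (hy' : Sh α γ r φ (s * h) y') :
    ∃ a τ, τ ∈ {g : G | ∃ t : Fin 3 → X, min c₁ (ε₂ / 2) ≤ Pool.Agent.TH289.C.sep t ∧
        min c₁ (ε₂ / 2) ≤ Pool.Agent.TH289.C.sep (act α g t)} ∧ Sh α γ r φ (τ * a) y' ∧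
      ε₂ / 2 < dist (φ (γ (φ a) * a)) (α (γ (φ a) * a) y') := by
  have hr4 := hp.r4
  have hr := hp.r_pos
  have hφF : PO α F δ φ := fun g hg => hφ g (Or.inl hg)
  have hsφ := hφ s (Or.inr hs) h
  -- the point z
  obtain ⟨t, ht⟩ := hS.D2
  obtain ⟨i, -, -, hi, -⟩ := two_outside ht (φ h)
  set z := (α h).symm (t i) with hz
  have hz1 : α h z = t i := (α h).apply_symm_apply _
  have hzh : ε₂ ≤ dist (φ h) (α h z) := by
    rw [hz1, dist_comm]; exact hS.D1.trans hi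
  have hzs : ε₂ ≤ dist (φ (s * h)) (α (s * h) z) := by
    rw [alpha_mul, hz1]
    have h1 := hS.s3 s hs (φ h) (t i) (by rw [dist_comm]; exact hi)
    have h2 := dist_triangle (α s (φ h)) (φ (s * h)) (α s (t i))
    rw [dist_comm (α s (φ h)) (φ (s * h))] at h2
    linarith
  have hy0 : dist (φ h) (α h y) ≤ r := hy 0
  have hy0' : dist (φ (s * h)) (α (s * h) y') ≤ r := hy' 0
  have hst : dist (φ h) (α h y') ≤ ε₂ / 2 := by
    refine hS.s2 s hs _ _ ?_
    rw [← alpha_mul]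
    have h2 := dist_triangle (α s (φ h)) (φ (s * h)) (α (s * h) y')
    rw [dist_comm (α s (φ h)) (φ (s * h))] at h2
    linarith
  have hst' : dist (φ (s * h)) (α (s * h) y) ≤ ε₂ / 2 := by
    have h1 := hS.s1 s hs _ _ hy0
    rw [← alpha_mul] at h1
    have h2 := dist_triangle (φ (s * h)) (α s (φ h)) (α (s * h) y)
    linarith
  obtain ⟨a, ha1, ha2, ha3, ha4, ha5⟩ := hp.half hc₁ hφF hδ hne hy hst hzh
  obtain ⟨b, hb1, hb2, hb3, hb4, hb5⟩ := hp.half hc₁ hφF hδ hne.symm hy' hst' hzs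
  refine ⟨a, b * a⁻¹, ⟨act α a ![y, y', z], ?_, ?_⟩, by rwa [inv_mul_cancel_right], ha5⟩
  · have h0 := ha1 0
    change dist (φ a) (α a y) ≤ r at h0
    have h1 := dist_triangle_left (α a y') (α a z) (φ a)
    have h2 := dist_triangle (φ a) (α a y') (α a z)
    have h3 := dist_triangle (φ a) (α a y) (α a z)
    unfold Pool.Agent.TH289.C.sep
    change _ ≤ min (dist (α a y) (α a y')) (min (dist (α a y') (α a z)) (dist (α a y) (α a z)))
    refine le_min ((min_le_left _ _).trans ha4) (le_min ((min_le_right _ _).trans ?_)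
      ((min_le_right _ _).trans ?_)) <;> linarith
  · have h0 := hb1 0
    change dist (φ b) (α b y') ≤ r at h0
    have h2 := dist_triangle (φ b) (α b y') (α b z)
    have h3 := dist_triangle (φ b) (α b y) (α b z)
    rw [← act_mul, inv_mul_cancel_right]
    unfold Pool.Agent.TH289.C.sep
    change _ ≤ min (dist (α b y) (α b y')) (min (dist (α b y') (α b z)) (dist (α b y) (α b z)))
    refine le_min ((min_le_left _ _).trans (by rw [dist_comm]; exact hb4))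
      (le_min ((min_le_right _ _).trans ?_) ((min_le_right _ _).trans ?_)) <;> linarith

theorem exists_lim [CompactSpace X] {ι : Type} (𝓤 : Ultrafilter ι) (f : ι → X) :
    ∃ x, Tendsto f 𝓤 (𝓝 x) := ⟨_, (𝓤.map f).le_nhds_lim⟩

omit [Group G] in
theorem exists_const {ι : Type} (𝓤 : Ultrafilter ι) {T : Set G} (hT : T.Finite) (f : ι → G)
    (hf : ∀ i, f i ∈ T) : ∃ c ∈ T, ∀ᶠ i in (𝓤 : Filter ι), f i = c := by
  have h1 : (⋃ c ∈ T, {i | f i = c}) ∈ 𝓤 := by
    have : (⋃ c ∈ T, {i | f i = c}) = univ := by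
      ext i
      simp [hf i]
    rw [this]
    exact Filter.univ_mem
  obtain ⟨c, hc, h2⟩ := (Ultrafilter.finite_biUnion_mem_iff hT).1 h1
  exact ⟨c, hc, h2⟩

/-- The limit argument. -/
theorem Par.no_limit [CompactSpace X] (hp : Par α γ F r ε₂) {T : Set G} (hT : T.Finite) {ι : Type}
    (𝓤 : Ultrafilter ι) (φ : ι → G → X) (δ : ι → ℝ) (hδ0 : Tendsto δ 𝓤 (𝓝 0))
    (hδ : ∀ i, δ i ≤ r) (hPO : ∀ i, PO α F (δ i) (φ i))
    (hPO' : ∀ g, ∀ᶠ i in (𝓤 : Filter ι), ∀ h, dist (φ i (g * h)) (α g (φ i h)) ≤ δ i)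
    (a τ : ι → G) (hτ : ∀ i, τ i ∈ T) (y' : ι → X) (hSh : ∀ i, Sh α γ r (φ i) (τ i * a i) (y' i))
    {ρ : ℝ} (hρ : 0 < ρ)
    (hsep : ∀ i, ρ < dist (φ i (γ (φ i (a i)) * a i)) (α (γ (φ i (a i)) * a i) (y' i))) :
    False := by
  have hr4 := hp.r4
  have hr := hp.r_pos
  choose ψ hψ using fun g => exists_lim 𝓤 (fun i => φ i (g * a i))
  obtain ⟨Y, hY⟩ := exists_lim 𝓤 (fun i => α (a i) (y' i))
  have hexact : ∀ g h, ψ (g * h) = α g (ψ h) := by
    intro g h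
    have h1 : Tendsto (fun i => dist (φ i (g * h * a i)) (α g (φ i (h * a i)))) 𝓤
        (𝓝 (dist (ψ (g * h)) (α g (ψ h)))) :=
      (hψ (g * h)).dist (((α g).continuous.tendsto _).comp (hψ h))
    have h2 : ∀ᶠ i in (𝓤 : Filter ι),
        dist (φ i (g * h * a i)) (α g (φ i (h * a i))) ≤ δ i := by
      filter_upwards [hPO' g] with i hi
      rw [mul_assoc]
      exact hi _
    exact dist_le_zero.1 (le_of_tendsto_of_tendsto h1 hδ0 h2)
  obtain ⟨τ₀, -, hτ₀⟩ := exists_const 𝓤 hT τ hτ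
  have he : ∀ k, ∃ c, ∀ᶠ i in (𝓤 : Filter ι), P γ (φ i) (τ i * a i) k = c * a i := by
    intro k
    induction k with
    | zero =>
      refine ⟨τ₀, ?_⟩
      filter_upwards [hτ₀] with i hi
      rw [← hi]; rfl
    | succ k ih =>
      obtain ⟨c, hc⟩ := ih
      obtain ⟨g, -, hg⟩ := exists_const 𝓤 hp.finF
        (fun i => γ (φ i (P γ (φ i) (τ i * a i) k))) (fun i => hp.mem _)
      refine ⟨g * c, ?_⟩
      filter_upwards [hc, hg] with i h1 h2
      change γ (φ i (P γ (φ i) (τ i * a i) k)) * P γ (φ i) (τ i * a i) k = _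
      rw [h2, h1, mul_assoc]
  choose e he using he
  have hYe : Y = ψ 1 := by
    obtain ⟨t, ht⟩ := hp.big
    refine nest_unique (φ := ψ) (h := e) hp.conv (by linarith) hp.conn ?_ ht ?_ ?_
    · intro k w hw
      have h1 : Tendsto (fun i => dist (φ i (e (k + 1) * a i)) (α (e (k + 1)) w)) 𝓤
          (𝓝 (dist (ψ (e (k + 1))) (α (e (k + 1)) w))) := (hψ _).dist tendsto_const_nhds
      have h2 : Tendsto (fun i => dist (φ i (e k * a i)) (α (e k) w)) 𝓤
          (𝓝 (dist (ψ (e k)) (α (e k) w))) := (hψ _).dist tendsto_const_nhds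
      refine le_of_tendsto h2 ?_
      filter_upwards [h1.eventually (gt_mem_nhds hw), he k, he (k + 1)] with i h3 h4 h5
      have h6 := hp.nest (hPO i) (hδ i) (τ i * a i) k (α (a i)⁻¹ w)
      rw [h4, h5, alpha_mul_inv, alpha_mul_inv] at h6
      exact (h6 h3).le
    · intro k
      have h2 : Tendsto (fun i => dist (φ i (e k * a i)) (α (e k) (α (a i) (y' i)))) 𝓤
          (𝓝 (dist (ψ (e k)) (α (e k) Y))) :=
        (hψ _).dist (((α (e k)).continuous.tendsto _).comp hY)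
      refine le_of_tendsto h2 ?_
      filter_upwards [he k] with i h4
      have h6 := hSh i k
      rw [h4, alpha_mul] at h6
      exact h6
    · intro k
      have := hexact (e k) 1
      rw [mul_one] at this
      rw [this, dist_self]
      exact hr.le
  obtain ⟨g, -, hg⟩ := exists_const 𝓤 hp.finF (fun i => γ (φ i (a i))) (fun i => hp.mem _)
  have h2 : Tendsto (fun i => dist (φ i (g * a i)) (α g (α (a i) (y' i)))) 𝓤
      (𝓝 (dist (ψ g) (α g Y))) := (hψ _).dist (((α g).continuous.tendsto _).comp hY)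
  have h3 : ρ ≤ dist (ψ g) (α g Y) := by
    refine ge_of_tendsto h2 ?_
    filter_upwards [hg] with i h4
    have h6 := hsep i
    rw [h4, alpha_mul] at h6
    exact h6.le
  have h4 := hexact g 1
  rw [mul_one] at h4
  rw [h4, hYe, dist_self] at h3
  linarith

end Pool.Agent.TH726.ST
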