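import Pool.Agent.TH289.C.C0

/-!
# Uniform convergence actions: expansion and uniqueness of shadows
-/

set_option autoImplicit false

open Filter Topology Set

namespace Pool.Agent.TH726.ST

open Pool.Agent.TH289.C

variable {G : Type} [Group G] {X : Type} [MetricSpace X] {α : G →* (X ≃ₜ X)}

/-- Uniform continuity of finitely many elements. -/
theorem exists_modulus [CompactSpace X] (α : G →* (X ≃ₜ X)) {F : Set G} (hF : F.Finite) {ε : ℝ}
    (hε : 0 < ε) : ∃ δ > 0, ∀ g ∈ F, ∀ u v, dist u v < δ → dist (α g u) (α g v) < ε := by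
  refine Set.Finite.induction_on (motive := fun F _ => ∃ δ > 0, ∀ g ∈ F, ∀ u v, dist u v < δ →
    dist (α g u) (α g v) < ε) F hF ⟨1, one_pos, by simp⟩ ?_
  rintro a s - - ⟨δ, hδ, h⟩
  have huc := CompactSpace.uniformContinuous_of_continuous (α a).continuous
  rw [Metric.uniformContinuous_iff] at huc
  obtain ⟨δ', hδ', h'⟩ := huc ε hε
  refine ⟨min δ δ', lt_min hδ hδ', ?_⟩
  rintro g (rfl | hg) u v huv
  · exact h' (huv.trans_le (min_le_right _ _))
  · exact h g hg u v (huv.trans_le (min_le_left _ _))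

theorem expand_at [CompactSpace X] (hα : IsConvergenceAction α) {ε : ℝ} (hε : 0 < ε)
    (hco : ∀ x y z : X, x ≠ y → y ≠ z → x ≠ z → ∃ g : G,
      ε ≤ dist (α g x) (α g y) ∧ ε ≤ dist (α g y) (α g z) ∧ ε ≤ dist (α g x) (α g z))
    (x : X) [hx : (𝓝[≠] x).NeBot] {r : ℝ} (hr : 0 < r) :
    ∃ g : G, ∀ w, r ≤ dist x w → ε / 2 ≤ dist (α g x) (α g w) := by
  -- a second point
  obtain ⟨z, hz⟩ : ∃ z, z ≠ x := by
    obtain ⟨z, hz⟩ := hx.nonempty_of_mem self_mem_nhdsWithin
    exact ⟨z, hz⟩
  have hzx : 0 < dist z x := dist_pos.2 hz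
  have hy : ∀ n : ℕ, ∃ y, y ≠ x ∧ dist y x < min (1 / ((n : ℝ) + 1)) (dist z x) := by
    intro n
    have h1 : Metric.ball x (min (1 / ((n : ℝ) + 1)) (dist z x)) ∈ 𝓝 x :=
      Metric.ball_mem_nhds x (lt_min (by positivity) hzx)
    obtain ⟨y, hy1, hy2⟩ := hx.nonempty_of_mem
      (inter_mem (mem_nhdsWithin_of_mem_nhds h1) self_mem_nhdsWithin)
    exact ⟨y, hy2, hy1⟩
  choose y hyx hyd using hy
  have hyz : ∀ n, y n ≠ z := by
    intro n h
    have := (hyd n).trans_le (min_le_right _ _)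
    rw [h] at this
    exact lt_irrefl _ this
  have hg : ∀ n, ∃ g : G, ε ≤ dist (α g x) (α g (y n)) ∧ ε ≤ dist (α g (y n)) (α g z) ∧
      ε ≤ dist (α g x) (α g z) := fun n => hco x (y n) z (hyx n).symm (hyz n) hz.symm
  choose g hg1 hg2 hg3 using hg
  have hylim : Tendsto y atTop (𝓝 x) := by
    rw [tendsto_iff_dist_tendsto_zero]
    exact squeeze_zero (fun _ => dist_nonneg)
      (fun n => ((hyd n).trans_le (min_le_left _ _)).le) tendsto_one_div_add_atTop_nhds_zero_nat
  have hcof : Tendsto g atTop cofinite := by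
    refine tendsto_cofinite_of_ne fun g₀ => ?_
    have h1 : Tendsto (fun n => dist (α g₀ x) (α g₀ (y n))) atTop (𝓝 0) := by
      have := (((α g₀).continuous.tendsto x).comp hylim)
      have h2 := (tendsto_const_nhds (x := α g₀ x)).dist this
      simpa using h2
    filter_upwards [h1.eventually (gt_mem_nhds hε)] with n hn heq
    have := hg1 n
    rw [heq] at this
    exact absurd hn (not_lt.2 this)
  obtain ⟨φ, hφ, a, b, hab⟩ := hα g hcof
  have hUa : Metric.ball a (ε / 4) ∈ 𝓝 a := Metric.ball_mem_nhds a (by positivity)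
  have hbx : b = x := by
    by_contra hne
    have hbx : 0 < dist b x := dist_pos.2 hne
    have hW : Metric.ball b (dist b x / 2) ∈ 𝓝 b := Metric.ball_mem_nhds b (by positivity)
    have h1 := hab _ hUa _ hW
    have h2 : ∀ᶠ n in atTop, dist (y (φ n)) x < dist b x / 2 := by
      have := (hylim.comp hφ.tendsto_atTop).eventually (Metric.ball_mem_nhds x
        (show 0 < dist b x / 2 by positivity))
      exact this
    obtain ⟨n, hn1, hn2⟩ := (h1.and h2).exists
    have h3 := hn1 x (by
      rw [Metric.mem_ball, dist_comm]; linarith)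
    have h4 := hn1 (y (φ n)) (by
      rw [Metric.mem_ball]
      have := dist_triangle b (y (φ n)) x
      rw [dist_comm b (y (φ n))] at this
      linarith)
    rw [Metric.mem_ball] at h3 h4
    have h5 := dist_triangle_right (α (g (φ n)) x) (α (g (φ n)) (y (φ n))) a
    linarith [hg1 (φ n)]
  subst hbx
  have hW : Metric.ball b (min r (dist z b)) ∈ 𝓝 b := Metric.ball_mem_nhds b (lt_min hr hzx)
  obtain ⟨n, hn⟩ := (hab _ hUa _ hW).exists
  refine ⟨g (φ n), fun w hw => ?_⟩
  have h3 := hn w (by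
    rw [Metric.mem_ball, not_lt]
    exact (min_le_left _ _).trans (by rw [dist_comm w b]; exact hw))
  have h4 := hn z (by
    rw [Metric.mem_ball, not_lt]
    exact min_le_right _ _)
  rw [Metric.mem_ball] at h3 h4
  have h5 := dist_triangle4 (α (g (φ n)) b) (α (g (φ n)) w) a (α (g (φ n)) z)
  rw [dist_comm a] at h5
  linarith [hg3 (φ n)]

/-- Expansion: for every `r` finitely many elements expand at all points. -/
theorem expand [CompactSpace X] (hα : IsConvergenceAction α) (hco : CocompactOnTriples α)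
    (hX : ∀ x : X, (𝓝[≠] x).NeBot) :
    ∃ ε₁ : ℝ, 0 < ε₁ ∧ ∀ r : ℝ, 0 < r → ∃ F : Set G, F.Finite ∧ ∀ x : X, ∃ g ∈ F, ∀ w,
      dist (α g x) (α g w) < ε₁ → dist x w < r := by
  obtain ⟨ε, hε, hco⟩ := hco
  refine ⟨ε / 4, by positivity, fun r hr => ?_⟩
  have h1 : ∀ x : X, ∃ g : G, ∀ w, r / 2 ≤ dist x w → ε / 2 ≤ dist (α g x) (α g w) := fun x =>
    haveI := hX x
    expand_at hα hε hco x (by positivity)
  choose γ hγ using h1
  obtain ⟨t, -, ht⟩ := isCompact_univ.elim_nhds_subcover
    (fun x : X => {x' | dist x x' < r / 2 ∧ dist (α (γ x) x) (α (γ x) x') < ε / 4})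
    (fun x _ => by
      have h2 : Continuous fun x' => dist x x' := by fun_prop
      have h3 : Continuous fun x' => dist (α (γ x) x) (α (γ x) x') := by fun_prop
      exact inter_mem (h2.continuousAt.eventually_lt continuousAt_const (by simp; positivity))
        (h3.continuousAt.eventually_lt continuousAt_const (by simp; positivity)))
  refine ⟨γ '' (t : Set X), t.finite_toSet.image γ, fun x => ?_⟩
  obtain ⟨c, hc, hxc⟩ := mem_iUnion₂.1 (ht (mem_univ x))
  refine ⟨γ c, ⟨c, hc, rfl⟩, fun w hw => ?_⟩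
  obtain ⟨h2, h3⟩ := hxc
  by_contra hcon
  push Not at hcon
  have h4 : r / 2 ≤ dist c w := by
    have := dist_triangle_left x w c
    linarith
  have h5 := hγ c w h4
  have h6 := dist_triangle (α (γ c) c) (α (γ c) x) (α (γ c) w)
  linarith

/-- Points shadowed along a nested path are equal. -/
theorem nest_unique (hα : IsConvergenceAction α) {φ : G → X} {h : ℕ → G} {r ε₂ : ℝ}
    (hrε : r < ε₂) (hconn : ∀ x : X, ∃ v, r < dist x v ∧ dist x v < ε₂)
    (hN : ∀ k w, dist (φ (h (k + 1))) (α (h (k + 1)) w) < ε₂ → dist (φ (h k)) (α (h k) w) ≤ r)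
    {t : Fin 3 → X} (ht : 2 * ε₂ ≤ sep t) {u u' : X}
    (hu : ∀ k, dist (φ (h k)) (α (h k) u) ≤ r) (hu' : ∀ k, dist (φ (h k)) (α (h k) u') ≤ r) :
    u = u' := by
  by_contra hne
  have hfar : ∀ z, ε₂ ≤ dist (φ (h 0)) (α (h 0) z) → ∀ k, ε₂ ≤ dist (φ (h k)) (α (h k) z) := by
    intro z hz k
    induction k with
    | zero => exact hz
    | succ k ih =>
      by_contra hcon
      have := hN k z (not_le.1 hcon)
      linarith
  obtain ⟨i, j, hij, hi, hj⟩ := two_outside ht (φ (h 0))
  by_cases hfin : (Set.range h).Finite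
  · -- a repetition
    obtain ⟨a, b, hab, hab'⟩ : ∃ a b, a < b ∧ h a = h b := by
      have : ¬ Function.Injective h := fun hinj => Set.infinite_range_of_injective hinj hfin
      rw [Function.Injective] at this
      push Not at this
      obtain ⟨a, b, h1, h2⟩ := this
      rcases lt_or_gt_of_ne h2 with h3 | h3
      · exact ⟨a, b, h3, h1⟩
      · exact ⟨b, a, h3, h1.symm⟩
    have hit : ∀ d w, dist (φ (h (a + 1 + d))) (α (h (a + 1 + d)) w) < ε₂ →
        dist (φ (h a)) (α (h a) w) ≤ r := by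
      intro d
      induction d with
      | zero => intro w hw; exact hN a w hw
      | succ d ih => intro w hw; exact ih w ((hN (a + 1 + d) w hw).trans_lt hrε)
    obtain ⟨v, hv1, hv2⟩ := hconn (φ (h a))
    obtain ⟨d, rfl⟩ := Nat.exists_eq_add_of_le (Nat.succ_le_of_lt hab)
    have h3 := hit d ((α (h a)).symm v) (by
      rw [show a + 1 + d = a.succ + d from rfl, ← hab', Homeomorph.apply_symm_apply]
      exact hv2)
    rw [Homeomorph.apply_symm_apply] at h3
    linarith
  · have hinf : (Set.range h).Infinite := hfin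
    set e := hinf.natEmbedding with he
    have hk : ∀ n, ∃ k, h k = (e n : G) := fun n => (e n).2
    choose k hk using hk
    have hg : Function.Injective fun n => (e n : G) := fun m n h => e.injective (Subtype.ext h)
    obtain ⟨ψ, hψ, a, b, hab⟩ := hα _ (tendsto_cofinite_of_inj hg)
    have hzz : α.toFun (h 0) ((α (h 0)).symm (t i)) = t i := (α (h 0)).apply_symm_apply _
    have hti : ∀ l : Fin 3, ε₂ ≤ dist (t l) (φ (h 0)) →
        ∀ n, ε₂ ≤ dist (φ (h n)) (α (h n) ((α (h 0)).symm (t l))) := by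
      intro l hl
      refine hfar _ ?_
      rw [Homeomorph.apply_symm_apply, dist_comm]
      exact hl
    have htij : t i ≠ t j := by
      have h1 := sep_le t hij
      have h2 : 0 < ε₂ := by
        by_contra hcon
        obtain ⟨v, hv1, hv2⟩ := hconn (φ (h 0))
        exact hcon (lt_of_le_of_lt dist_nonneg hv2)
      exact dist_pos.1 (by linarith)
    obtain ⟨l, hl, hlb⟩ : ∃ l : Fin 3, ε₂ ≤ dist (t l) (φ (h 0)) ∧
        (α (h 0)).symm (t l) ≠ b := by
      by_cases h1 : (α (h 0)).symm (t i) = b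
      · refine ⟨j, hj, fun h2 => htij ((α (h 0)).symm.injective (h1.trans h2.symm))⟩
      · exact ⟨i, hi, h1⟩
    obtain ⟨c, hc, hcb⟩ : ∃ c, (∀ k, dist (φ (h k)) (α (h k) c) ≤ r) ∧ c ≠ b := by
      by_cases h1 : u = b
      · exact ⟨u', hu', fun h2 => hne (h1.trans h2.symm)⟩
      · exact ⟨u, hu, h1⟩
    set z := (α (h 0)).symm (t l) with hz
    have hzb : 0 < dist z b := dist_pos.2 hlb
    have hcb' : 0 < dist c b := dist_pos.2 hcb
    have hW : Metric.ball b (min (dist z b) (dist c b)) ∈ 𝓝 b :=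
      Metric.ball_mem_nhds b (lt_min hzb hcb')
    have hU : Metric.ball a ((ε₂ - r) / 2) ∈ 𝓝 a := Metric.ball_mem_nhds a (by linarith)
    obtain ⟨n, hn⟩ := (hab _ hU _ hW).exists
    have h1 := hn z (by rw [Metric.mem_ball, not_lt]; exact min_le_left _ _)
    have h2 := hn c (by rw [Metric.mem_ball, not_lt]; exact min_le_right _ _)
    simp only [Metric.mem_ball] at h1 h2
    rw [← hk (ψ n)] at h1 h2
    have h3 := hti l hl (k (ψ n))
    have h4 := hc (k (ψ n))
    have h5 := dist_triangle4 (φ (h (k (ψ n)))) (α (h (k (ψ n))) c) a (α (h (k (ψ n))) z)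
    rw [dist_comm a] at h5
    linarith

end Pool.Agent.TH726.ST
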