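import Pool.Agent.TH726.ST.Main
import Pool.Agent.TH289.C.C11

/-!
# Boundary actions close to Möbius actions and to projective actions
-/

set_option autoImplicit false

open Filter Topology Set

namespace Pool.Agent.TH726.ST

open Pool.Agent.TH289.C

variable {G : Type} [Group G] {E : Type} [NormedAddCommGroup E] [InnerProductSpace ℝ E]
  [FiniteDimensional ℝ E]

section Act

variable {V : Type} [NormedAddCommGroup V] [NormedSpace ℝ V] {C : Set V} {τ : V →L[ℝ] ℝ}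
  {ρ : G →* (V ≃L[ℝ] V)}

/-- The action on the boundary of the domain. -/
noncomputable def bdAct (hC : IsStrictCone C τ) (hpres : ∀ g, ∀ v ∈ C, ρ g v ∈ C) (g : G)
    (y : Bd C τ) : Bd C τ := ⟨proj τ (ρ g y), rho_bd hC hpres g y.2⟩

theorem continuous_bdAct (hC : IsStrictCone C τ) (hpres : ∀ g, ∀ v ∈ C, ρ g v ∈ C) (g : G) :
    Continuous (bdAct hC hpres g) := by
  refine Continuous.subtype_mk ?_ _
  rw [continuous_iff_continuousAt]
  intro y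
  have hp := rho_pos hC hpres g y.2.1 (ne_zero_of_one y.2.2.2)
  exact ContinuousAt.comp (f := fun y : Bd C τ => ρ g (y : V)) (g := proj τ)
    (continuousAt_proj hp.ne') (((ρ g).continuous.comp continuous_subtype_val).continuousAt)

theorem bdAct_one (hC : IsStrictCone C τ) (hpres : ∀ g, ∀ v ∈ C, ρ g v ∈ C) (y : Bd C τ) :
    bdAct hC hpres 1 y = y := by
  apply Subtype.ext
  change proj τ (ρ 1 y) = y
  rw [rho_one, proj_of_one y.2.2.2]

theorem bdAct_mul (hC : IsStrictCone C τ) (hpres : ∀ g, ∀ v ∈ C, ρ g v ∈ C) (g h : G)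
    (y : Bd C τ) : bdAct hC hpres (g * h) y = bdAct hC hpres g (bdAct hC hpres h y) := by
  apply Subtype.ext
  change proj τ (ρ (g * h) y) = proj τ (ρ g (proj τ (ρ h y)))
  have hp := rho_pos hC hpres h y.2.1 (ne_zero_of_one y.2.2.2)
  rw [rho_mul, proj.eq_1 τ (ρ h y), map_smul, proj_smul (inv_ne_zero hp.ne')]

end Act

theorem approx_cone (hE : 2 ≤ Module.finrank ℝ E) {α : G →* (Sph E ≃ₜ Sph E)}
    (hα : IsConvergenceAction α) (hco : CocompactOnTriples α) (hfg : Group.FG G) {η : ℝ}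
    (hη : 0 < η) (hη1 : η < 1) :
    ∃ F : Finset G, ∃ δ : ℝ, 0 < δ ∧ ∀ (V : Type) [NormedAddCommGroup V] [NormedSpace ℝ V]
      [FiniteDimensional ℝ V] (C : Set V) (τ : V →L[ℝ] ℝ) (ρ : G →* (V ≃L[ℝ] V))
      (φ : Bd C τ ≃ₜ Sph E), IsStrictCone C τ → (∀ g, ∀ v ∈ C, ρ g v ∈ C) →
      (∀ g ∈ F, ∀ y z : Bd C τ, (z : V) = proj τ (ρ g y) → dist (φ z) (α g (φ y)) ≤ δ) →
      (∀ K ⊆ Dom C τ, IsCompact K → {g : G | ∃ v ∈ K, proj τ (ρ g v) ∈ K}.Finite) ∧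
      (∃ K ⊆ Dom C τ, IsCompact K ∧ ∀ v ∈ Dom C τ, ∃ g, proj τ (ρ g v) ∈ K) ∧
      ∃ ψ : Bd C τ ≃ₜ Sph E, (∀ y, dist (φ y) (ψ y) ≤ η) ∧
        ∀ g (y z : Bd C τ), (z : V) = proj τ (ρ g y) → ψ z = α g (ψ y) := by
  have hrank : 1 < Module.rank ℝ E := by
    rw [← Module.finrank_eq_rank]
    exact_mod_cast hE
  have hpre : IsPreconnected (Metric.sphere (0 : E) 1) := isPreconnected_sphere hrank 0 1
  have hps : PreconnectedSpace (Sph E) := Subtype.preconnectedSpace hpre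
  have hnt : Nontrivial E := Module.nontrivial_of_finrank_pos (R := ℝ) (by omega)
  obtain ⟨x₀, hx₀⟩ : ∃ x₀ : E, ‖x₀‖ = 1 := exists_norm_eq E zero_le_one
  set p : Sph E := ⟨x₀, by simpa using hx₀⟩ with hp
  set q : Sph E := ⟨-x₀, by simpa using hx₀⟩ with hq
  have hpq : dist p q = 2 := by
    rw [Subtype.dist_eq]
    change dist x₀ (-x₀) = 2
    rw [dist_eq_norm, sub_neg_eq_add, ← two_smul ℝ x₀, norm_smul, hx₀]
    norm_num
  have hne : Nonempty (Sph E) := ⟨p⟩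
  have hcs : ConnectedSpace (Sph E) := ⟨hne⟩
  have hnt' : Nontrivial (Sph E) := ⟨p, q, fun h => by
    rw [h, dist_self] at hpq
    norm_num at hpq⟩
  have : ProperSpace E := FiniteDimensional.proper ℝ E
  have hcS : CompactSpace (Sph E) := isCompact_iff_compactSpace.1 (isCompact_sphere (0 : E) 1)
  obtain ⟨F, δ, hδ, hmain⟩ := exists_factor hα hco hfg hη
  refine ⟨F, δ, hδ, ?_⟩
  intro V _ _ _ C τ ρ φ hC hpres hclose
  obtain ⟨f', hf'c, hf'd, hf'e⟩ := hmain (Bd C τ) (bdAct hC hpres) (continuous_bdAct hC hpres)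
    (bdAct_mul hC hpres) (bdAct_one hC hpres) φ φ.continuous
    (fun g hg y => hclose g hg y _ rfl)
  have hnc : ∃ x y : Sph E, f' (φ.symm x) ≠ f' (φ.symm y) := by
    refine ⟨p, q, fun h => ?_⟩
    have h1 := hf'd (φ.symm p)
    have h2 := hf'd (φ.symm q)
    rw [Homeomorph.apply_symm_apply] at h1 h2
    rw [← h] at h2
    have h3 := dist_triangle_right p q (f' (φ.symm p))
    linarith
  obtain ⟨z, hz⟩ := exists_three'' hE (⟨fun x => f' (φ.symm x), hf'c.comp φ.symm.continuous⟩ :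
    C(Sph E, Sph E)) hnc
  have hf : IsFactor C τ α ρ f' := by
    refine ⟨hC, hf'c, hpres, ?_, ⟨fun i => φ.symm (z i), fun i j hij => hz i j hij⟩⟩
    intro g y w hw
    have : w = bdAct hC hpres g y := Subtype.ext hw
    rw [this]
    exact hf'e g y
  obtain ⟨h1, h2, h3⟩ := main_factor hE hα hco hf
  refine ⟨h1, h2, h3.homeomorph f', hf'd, ?_⟩
  intro g y w hw
  exact hf.equi g y w hw

omit [FiniteDimensional ℝ E] in
theorem approx_hyp {α : G →* (Sph E ≃ₜ Sph E)} {F : Finset G} {δ η : ℝ}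
    (hmain : ∀ (C : Set (ℝ × E)) (τ : (ℝ × E) →L[ℝ] ℝ) (ρ : G →* ((ℝ × E) ≃L[ℝ] (ℝ × E)))
      (φ : Bd C τ ≃ₜ Sph E), IsStrictCone C τ → (∀ g, ∀ v ∈ C, ρ g v ∈ C) →
      (∀ g ∈ F, ∀ y z : Bd C τ, (z : ℝ × E) = proj τ (ρ g y) → dist (φ z) (α g (φ y)) ≤ δ) →
      (∀ K ⊆ Dom C τ, IsCompact K → {g : G | ∃ v ∈ K, proj τ (ρ g v) ∈ K}.Finite) ∧
      (∃ K ⊆ Dom C τ, IsCompact K ∧ ∀ v ∈ Dom C τ, ∃ g, proj τ (ρ g v) ∈ K) ∧
      ∃ ψ : Bd C τ ≃ₜ Sph E, (∀ y, dist (φ y) (ψ y) ≤ η) ∧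
        ∀ g (y z : Bd C τ), (z : ℝ × E) = proj τ (ρ g y) → ψ z = α g (ψ y))
    {ρ : G →* ((ℝ × E) ≃L[ℝ] (ℝ × E))} (hρ : ∀ g, IsIso (ρ g)) (φ : Sph E ≃ₜ Sph E)
    (hclose : ∀ g ∈ F, ∀ (x y : Sph E) (c : ℝ), 0 < c → ρ g (1, (x : E)) = c • (1, (y : E)) →
      dist (φ y) (α g (φ x)) ≤ δ) :
    (∀ K ⊆ Hyp E, IsCompact K → {g : G | ∃ v ∈ K, ρ g v ∈ K}.Finite) ∧
    (∃ K ⊆ Hyp E, IsCompact K ∧ ∀ v ∈ Hyp E, ∃ g, ρ g v ∈ K) ∧
    ∃ ψ : Sph E ≃ₜ Sph E, (∀ x, dist (φ x) (ψ x) ≤ η) ∧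
      ∀ g (x y : Sph E) (c : ℝ), 0 < c → ρ g (1, (x : E)) = c • (1, (y : E)) →
        ψ y = α g (ψ x) := by
  obtain ⟨h1, h2, ψ, h3, h4⟩ := hmain (Lc E) (ContinuousLinearMap.fst ℝ ℝ E) ρ
    (bdHomeo.trans φ) isStrictCone_Lc (fun g v hv => isIso_pres (hρ g) hv) (by
      intro g hg y w hw
      have hp : 0 < ContinuousLinearMap.fst ℝ ℝ E (ρ g y) :=
        rho_pos isStrictCone_Lc (fun g v hv => isIso_pres (hρ g) hv) g y.2.1
          (ne_zero_of_one y.2.2.2)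
      refine hclose g hg (bdHomeo y) (bdHomeo w) _ hp ?_
      have h1 : ((1 : ℝ), ((bdHomeo y : Sph E) : E)) = (y : ℝ × E) := bd_left y
      have h2 : ((1 : ℝ), ((bdHomeo w : Sph E) : E)) = (w : ℝ × E) := bd_left w
      rw [h1, h2, hw, proj, smul_smul, mul_inv_cancel₀ hp.ne', one_smul])
  refine ⟨hyp_proper h1, hyp_cocompact hρ h2, bdHomeo.symm.trans ψ, ?_, ?_⟩
  · intro x
    have := h3 (bdHomeo.symm x)
    simpa using this
  · intro g x y c hc hxy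
    refine h4 g (bdHomeo.symm x) (bdHomeo.symm y) ?_
    change ((1 : ℝ), (y : E)) = proj (ContinuousLinearMap.fst ℝ ℝ E) (ρ g ((1 : ℝ), (x : E)))
    rw [hxy, proj_smul hc.ne', proj_of_one (by simp)]

end Pool.Agent.TH726.ST
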