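import Pool.Agent.TH726.ST.Coh

/-!
# The shadowing theorem for finitely generated uniform convergence groups
-/

set_option autoImplicit false

open Filter Topology Set

namespace Pool.Agent.TH726.ST

open Pool.Agent.TH289.C

variable {G : Type} [Group G] {X : Type} [MetricSpace X] {α : G →* (X ≃ₜ X)}
variable {γ : X → G} {F S : Set G} {r ε₂ : ℝ}

theorem Par.coherence [CompactSpace X] (hp : Par α γ F r ε₂) {D : ℝ} (hS : ParS α S r ε₂ D) :
    ∃ F' : Finset G, ∃ δ : ℝ, 0 < δ ∧ δ ≤ r ∧ F ⊆ F' ∧ ∀ φ : G → X, PO α F' δ φ → ∀ h, ∀ s ∈ S,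
      ∀ y y', Sh α γ r φ h y → Sh α γ r φ (s * h) y' → y = y' := by
  classical
  by_contra hcon
  push Not at hcon
  have hr4 := hp.r4
  have hr := hp.r_pos
  obtain ⟨c₁, hc₁, hmod⟩ := exists_modulus α hp.finF (ε := ε₂ / 2 - r) (by linarith)
  set F₀ : Finset G := hp.finF.toFinset ∪ hS.finS.toFinset with hF₀
  have key : ∀ i : Finset G × ℕ, ∃ φ : G → X, ∃ a τ : G, ∃ y' : X,
      PO α (F₀ ∪ i.1 : Finset G) (min r (1 / ((i.2 : ℝ) + 1))) φ ∧
      τ ∈ {g : G | ∃ t : Fin 3 → X, min c₁ (ε₂ / 2) ≤ Pool.Agent.TH289.C.sep t ∧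
        min c₁ (ε₂ / 2) ≤ Pool.Agent.TH289.C.sep (act α g t)} ∧ Sh α γ r φ (τ * a) y' ∧
      ε₂ / 2 < dist (φ (γ (φ a) * a)) (α (γ (φ a) * a) y') := by
    intro i
    obtain ⟨φ, hφ, h, s, hs, y, y', hy, hy', hne⟩ := hcon (F₀ ∪ i.1)
      (min r (1 / ((i.2 : ℝ) + 1))) (lt_min hr (by positivity)) (min_le_left _ _) (by
        intro g hg
        simp [F₀, hg])
    obtain ⟨a, τ, h1, h2, h3⟩ := hp.sep hS hmod (φ := φ)
      (δ := min r (1 / ((i.2 : ℝ) + 1))) (fun g hg => hφ g (by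
        rcases hg with hg | hg <;> simp [F₀, hg])) (min_le_left _ _) hs hne hy hy'
    exact ⟨φ, a, τ, y', hφ, h1, h2, h3⟩
  choose φ a τ y' hφ hτ hSh hsep using key
  set 𝓤 : Ultrafilter (Finset G × ℕ) := Ultrafilter.of atTop with h𝓤
  have hle : (𝓤 : Filter (Finset G × ℕ)) ≤ atTop := Ultrafilter.of_le _
  refine hp.no_limit (finite_meet hp.conv (c := min c₁ (ε₂ / 2)) (d := min c₁ (ε₂ / 2))
    (lt_min hc₁ (by linarith)) (lt_min hc₁ (by linarith))) 𝓤 φ
    (fun i => min r (1 / ((i.2 : ℝ) + 1))) ?_ (fun i => min_le_left _ _)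
    (fun i g hg => hφ i g (by simp [F₀, hg])) ?_ a τ hτ y' hSh (show 0 < ε₂ / 2 by linarith) hsep
  · refine Tendsto.mono_left ?_ hle
    have h1 : Tendsto (fun i : Finset G × ℕ => 1 / ((i.2 : ℝ) + 1)) atTop (𝓝 0) := by
      rw [← prod_atTop_atTop_eq]
      exact tendsto_one_div_add_atTop_nhds_zero_nat.comp tendsto_snd
    exact squeeze_zero (fun i => le_min hr.le (by positivity)) (fun i => min_le_right _ _) h1
  · intro g
    refine hle ?_
    filter_upwards [eventually_ge_atTop (({g} : Finset G), 0)] with i hi h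
    refine hφ i g ?_ h
    have : g ∈ i.1 := hi.1 (Finset.mem_singleton_self g)
    simp [this]

theorem Par.shadow [CompactSpace X] (hp : Par α γ F r ε₂) {D : ℝ} (hS : ParS α S r ε₂ D)
    (hgen : Subgroup.closure S = ⊤) :
    ∃ F' : Finset G, ∃ δ : ℝ, 0 < δ ∧ ∀ φ : G → X, PO α F' δ φ →
      ∃ y, ∀ h, dist (φ h) (α h y) ≤ r := by
  obtain ⟨F', δ, hδ, hδr, hFF, hco⟩ := hp.coherence hS
  refine ⟨F', δ, hδ, fun φ hφ => ?_⟩
  have hφF : PO α F δ φ := fun g hg => hφ g (hFF hg)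
  choose y hy using fun h => hp.exists_Sh hφF hδr h
  have h1 : ∀ s ∈ S, ∀ h, y (s * h) = y h := fun s hs h =>
    (hco φ hφ h s hs _ _ (hy h) (hy (s * h))).symm
  have h2 : ∀ g : G, ∀ h, y (g * h) = y h := by
    intro g
    have hg : g ∈ Subgroup.closure S := by rw [hgen]; trivial
    induction hg using Subgroup.closure_induction with
    | mem x hx => exact h1 x hx
    | one => intro h; rw [one_mul]
    | mul x x' _ _ ih1 ih2 => intro h; rw [mul_assoc, ih1, ih2]
    | inv x _ ih => intro h; have := ih (x⁻¹ * h); rw [mul_inv_cancel_left] at this; exact this.symm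
  refine ⟨y 1, fun h => ?_⟩
  have h3 := h2 h 1
  rw [mul_one] at h3
  have h4 := hy h 0
  change dist (φ h) (α h (y h)) ≤ r at h4
  rwa [h3] at h4

/-- **Shadowing.** Finitely generated uniform convergence groups on connected compact metric spaces
have the shadowing property. -/
theorem shadowing [CompactSpace X] [ConnectedSpace X] [Nontrivial X]
    (hα : IsConvergenceAction α) (hco : CocompactOnTriples α) (hfg : Group.FG G) {η : ℝ}
    (hη : 0 < η) :
    ∃ F' : Finset G, ∃ δ : ℝ, 0 < δ ∧ ∀ φ : G → X, PO α F' δ φ →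
      ∃ y, ∀ h, dist (φ h) (α h y) ≤ η := by
  have hX : ∀ x : X, (𝓝[≠] x).NeBot := fun x => inferInstance
  obtain ⟨ε₁, hε₁, hexp⟩ := expand hα hco hX
  obtain ⟨S, hS⟩ : ∃ S : Finset G, Subgroup.closure (S : Set G) = ⊤ := hfg.out
  -- a separated triple
  obtain ⟨t, ht⟩ : ∃ t : Fin 3 → X, 0 < Pool.Agent.TH289.C.sep t := by
    obtain ⟨x, z, hxz⟩ := exists_pair_ne X
    obtain ⟨w, hw⟩ : ∃ w, w ≠ x ∧ w ≠ z := by
      have h1 : ({z}ᶜ : Set X) ∈ 𝓝 x := isOpen_compl_singleton.mem_nhds hxz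
      obtain ⟨w, hw1, hw2⟩ := (hX x).nonempty_of_mem
        (inter_mem (mem_nhdsWithin_of_mem_nhds h1) self_mem_nhdsWithin)
      exact ⟨w, hw2, hw1⟩
    refine ⟨![x, z, w], ?_⟩
    unfold Pool.Agent.TH289.C.sep
    change 0 < min (dist x z) (min (dist z w) (dist x w))
    exact lt_min (dist_pos.2 hxz) (lt_min (dist_pos.2 hw.2.symm) (dist_pos.2 hw.1.symm))
  set D := Pool.Agent.TH289.C.sep t / 2 with hD
  have hDpos : 0 < D := by positivity
  -- modulus for the inverses of the generators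
  have hSi : (((fun g : G => g⁻¹) '' (S : Set G)) : Set G).Finite := S.finite_toSet.image _
  obtain ⟨δ₃, hδ₃, h3⟩ := exists_modulus α hSi hDpos
  set ε₂ := min (ε₁ / 2) (min (δ₃ / 4) D) with hε₂
  have hε₂pos : 0 < ε₂ := lt_min (by positivity) (lt_min (by positivity) hDpos)
  have he1 : ε₂ ≤ ε₁ / 2 := min_le_left _ _
  have he2 : ε₂ ≤ δ₃ / 4 := (min_le_right _ _).trans (min_le_left _ _)
  have he3 : ε₂ ≤ D := (min_le_right _ _).trans (min_le_right _ _)
  obtain ⟨δ₁, hδ₁, h1⟩ := exists_modulus α S.finite_toSet (ε := ε₂ / 4) (by positivity)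
  obtain ⟨δ₂, hδ₂, h2⟩ := exists_modulus α hSi (ε := ε₂ / 2) (by positivity)
  set r := min (min (ε₂ / 4) η) (min (δ₁ / 2) (δ₂ / 4)) with hrdef
  have hr : 0 < r := lt_min (lt_min (by positivity) hη) (lt_min (by positivity) (by positivity))
  have hr1 : r ≤ ε₂ / 4 := (min_le_left _ _).trans (min_le_left _ _)
  have hr2 : r ≤ η := (min_le_left _ _).trans (min_le_right _ _)
  have hr3 : r ≤ δ₁ / 2 := (min_le_right _ _).trans (min_le_left _ _)
  have hr4 : r ≤ δ₂ / 4 := (min_le_right _ _).trans (min_le_right _ _)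
  obtain ⟨F, hF, hFe⟩ := hexp r hr
  choose γ hγ hγe using hFe
  have hinv : ∀ s : G, ∀ u, α s⁻¹ (α s u) = u := fun s u => by
    rw [← alpha_mul, inv_mul_cancel, alpha_one]
  have hp : Par α γ F r ε₂ := by
    refine ⟨hα, hF, hγ, fun x w hw => hγe x w (by linarith), hr, hr1, ?_, ⟨t, by linarith⟩⟩
    intro x
    obtain ⟨i, -, -, hi, -⟩ := two_outside (r := D) (show 2 * D ≤ _ by rw [hD]; linarith) x
    have hc : Continuous fun v : X => dist x v := by fun_prop
    obtain ⟨v, hv⟩ := mem_range_of_exists_le_of_exists_ge (c := (r + ε₂) / 2) hc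
      ⟨x, by rw [dist_self]; positivity⟩ ⟨t i, by rw [dist_comm]; linarith⟩
    simp only at hv
    exact ⟨v, by rw [hv]; linarith, by rw [hv]; linarith⟩
  have hpS : ParS α (S : Set G) r ε₂ D := by
    refine ⟨S.finite_toSet, ?_, ?_, ?_, he3, ⟨t, by rw [hD]; linarith⟩⟩
    · intro s hs u v huv
      exact (h1 s hs u v (by linarith)).le
    · intro s hs u v huv
      have := h2 s⁻¹ ⟨s, hs, rfl⟩ (α s u) (α s v) (by linarith)
      rw [hinv, hinv] at this
      exact this.le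
    · intro s hs u v huv
      by_contra hcon
      have := h3 s⁻¹ ⟨s, hs, rfl⟩ (α s u) (α s v) (by linarith [not_le.1 hcon])
      rw [hinv, hinv] at this
      linarith
  obtain ⟨F', δ, hδ, hsh⟩ := hp.shadow hpS hS
  refine ⟨F', δ, hδ, fun φ hφ => ?_⟩
  obtain ⟨y, hy⟩ := hsh φ hφ
  exact ⟨y, fun h => (hy h).trans hr2⟩

/-- Points whose orbits stay close are equal. -/
theorem eq_of_close [Nontrivial X] [ConnectedSpace X] {ε : ℝ}
    (hco : ∀ x y z : X, x ≠ y → y ≠ z → x ≠ z → ∃ g : G,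
      ε ≤ dist (α g x) (α g y) ∧ ε ≤ dist (α g y) (α g z) ∧ ε ≤ dist (α g x) (α g z)) {y y' : X}
    (h : ∀ g, dist (α g y) (α g y') < ε) : y = y' := by
  by_contra hne
  have hX : (𝓝[≠] y).NeBot := inferInstance
  obtain ⟨w, hw⟩ : ∃ w, w ≠ y ∧ w ≠ y' := by
    have h1 : ({y'}ᶜ : Set X) ∈ 𝓝 y := isOpen_compl_singleton.mem_nhds hne
    obtain ⟨w, hw1, hw2⟩ := hX.nonempty_of_mem
      (inter_mem (mem_nhdsWithin_of_mem_nhds h1) self_mem_nhdsWithin)
    exact ⟨w, hw2, hw1⟩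
  obtain ⟨g, hg, -, -⟩ := hco y y' w hne hw.2.symm hw.1.symm
  exact absurd (h g) (not_lt.2 hg)

/-- **Approximate factor maps are close to factor maps.** -/
theorem exists_factor [CompactSpace X] [ConnectedSpace X] [Nontrivial X]
    (hα : IsConvergenceAction α) (hco : CocompactOnTriples α) (hfg : Group.FG G) {η : ℝ}
    (hη : 0 < η) :
    ∃ F' : Finset G, ∃ δ : ℝ, 0 < δ ∧ ∀ (Z : Type) [TopologicalSpace Z] (β : G → Z → Z),
      (∀ g, Continuous (β g)) → (∀ g h x, β (g * h) x = β g (β h x)) → (∀ x, β 1 x = x) →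
      ∀ f : Z → X, Continuous f → (∀ g ∈ F', ∀ x, dist (f (β g x)) (α g (f x)) ≤ δ) →
      ∃ f' : Z → X, Continuous f' ∧ (∀ x, dist (f x) (f' x) ≤ η) ∧
        ∀ g x, f' (β g x) = α g (f' x) := by
  obtain ⟨ε, hε, hco'⟩ := hco
  obtain ⟨F', δ, hδ, hsh⟩ := shadowing hα ⟨ε, hε, hco'⟩ hfg (η := min η (ε / 3))
    (lt_min hη (by positivity))
  refine ⟨F', δ, hδ, ?_⟩
  intro Z _ β hβc hβm hβ1 f hf hdef
  have hPO : ∀ x, PO α F' δ (fun h => f (β h x)) := by
    intro x g hg h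
    simp only
    rw [hβm]
    exact hdef g hg (β h x)
  choose f' hf' using fun x => hsh _ (hPO x)
  have huniq : ∀ x y, (∀ h, dist (f (β h x)) (α h y) ≤ min η (ε / 3)) → y = f' x := by
    intro x y hy
    refine eq_of_close hco' fun g => ?_
    have h1 := dist_triangle_left (α g y) (α g (f' x)) (f (β g x))
    have h2 := (hy g).trans (min_le_right _ _)
    have h3 := (hf' x g).trans (min_le_right _ _)
    linarith
  refine ⟨f', ?_, ?_, ?_⟩
  · rw [continuous_iff_continuousAt]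
    intro x
    -- compactness
    rw [ContinuousAt, Filter.tendsto_iff_ultrafilter]
    intro 𝓤 h𝓤
    obtain ⟨y, hy⟩ := exists_lim 𝓤 f'
    have h1 : y = f' x := by
      refine huniq x y fun h => ?_
      have h2 : Tendsto (fun x' => dist (f (β h x')) (α h (f' x'))) 𝓤
          (𝓝 (dist (f (β h x)) (α h y))) := by
        refine Tendsto.dist ?_ (((α h).continuous.tendsto _).comp hy)
        exact ((hf.comp (hβc h)).tendsto x).mono_left h𝓤
      exact le_of_tendsto h2 (Filter.Eventually.of_forall fun x' => hf' x' h)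
    rw [← h1]
    exact hy
  · intro x
    have := hf' x 1
    rw [hβ1, alpha_one] at this
    exact this.trans (min_le_left _ _)
  · intro g x
    refine (huniq (β g x) (α g (f' x)) fun h => ?_).symm
    rw [← hβm, ← alpha_mul]
    exact hf' x (h * g)

end Pool.Agent.TH726.ST
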